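import Pool.Agent.W203.WS.Stm2
import Pool.Agent.W779.WS.Fr

set_option autoImplicit false

namespace Pool.Agent.W190.WT

open MeasureTheory Pool.Agent.W203.WS Pool.Agent.W779.WS

theorem t_FLALL (h : S_FL) : S_FLALL := by
  intro k s hk hs
  have h1 := h k s hk hs
  have hm : MeasurableSet (cube s) := by
    unfold cube
    exact MeasurableSet.univ_pi fun _ => measurableSet_Icc
  have hC : ∀ θ : Fin s → ℝ, (fun i => Int.fract (θ i)) ∈ cube s := by
    intro θ i _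
    exact ⟨Int.fract_nonneg _, (Int.fract_lt_one _).le⟩
  have h2 := ae_fract' (cube s) hm hC h1
  filter_upwards [h2] with θ hθ
  intro L
  obtain ⟨N₀, hM⟩ := hθ (L + ∑ i, |⌊θ i⌋|).toNat
  refine ⟨N₀, fun N hN => ?_⟩
  obtain ⟨x, hx, hx2⟩ := hM N hN
  refine ⟨fun i => (x i : ℤ) - ⌊θ i⌋, fun i => ?_, ?_⟩
  · have h3 := hx i
    have h4 : (L + ∑ i, |⌊θ i⌋|) ≤ (x i : ℤ) :=
      (Int.self_le_toNat _).trans (by exact_mod_cast h3)
    have h5 : |⌊θ i⌋| ≤ ∑ i, |⌊θ i⌋| :=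
      Finset.single_le_sum (f := fun i => |⌊θ i⌋|) (fun _ _ => abs_nonneg _) (Finset.mem_univ i)
    have h6 := le_abs_self ⌊θ i⌋
    show L ≤ (x i : ℤ) - ⌊θ i⌋
    linarith
  · have h7 : ∀ i, ((((x i : ℤ) - ⌊θ i⌋ : ℤ) : ℝ) + θ i) = (x i : ℝ) + Int.fract (θ i) := by
      intro i
      rw [Int.fract]
      push_cast
      ring
    simp only [h7]
    exact hx2

end Pool.Agent.W190.WT
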